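import Pool.Agent.K.MP_d124bf_nt.C2

namespace Pool.Agent.Results.MP_d124bf_nt.FewExceptions

open Pool.Agent.P.MP_d124bf_nt

theorem result (μ : ℝ) (hμ : Real.logb 2 3 < μ) :
    ∃ c₁ : ℝ, 0 < c₁ ∧ ∃ n k₀ : ℕ, ∀ k p : ℕ, k₀ ≤ k → p ≤ k → ∀ t : ℝ, (2 : ℝ) ^ (-c₁ * k) ≤ t →
      (((Finset.Ioo (0 : ℕ) (2 ^ p)).filter (fun ξ : ℕ => t < ‖coeff μ k p (ξ : ℤ)‖)).card : ℝ)
        ≤ ((k : ℝ) ^ 4 / t) ^ n :=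
  large_bound hμ

end Pool.Agent.Results.MP_d124bf_nt.FewExceptions
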