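import Pool.Agent.K.MP_d124bf_nt.C0
import Pool.Agent.K.MP_d124bf_nt.C3

namespace Pool.Agent.Results.MP_d124bf_nt.Poly

open Pool.Agent.P.MP_d124bf_nt

theorem result (μ : ℝ) (hμ : 1 < μ) :
    ∃ c : ℝ, 0 < c ∧ ∃ k₀ : ℕ, ∀ k p : ℕ, ∀ ξ : ℤ, k₀ ≤ k → 1 ≤ p → p ≤ k → 0 < ξ → ξ < 2 ^ p →
      ‖coeff μ k p ξ‖ ≤ (k : ℝ) ^ (-c) := by
  have h0 : 0 < μ⁻¹ := by positivity
  have h1 : μ⁻¹ < 1 := inv_lt_one_of_one_lt₀ hμ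
  have hb : 0 < 1 - μ⁻¹ := by linarith
  have hb3 : (1 - μ⁻¹) ^ 3 ≤ 1 := pow_le_one₀ hb.le (by linarith)
  have hp : 0 < μ⁻¹ * (1 - μ⁻¹) ^ 3 := by positivity
  have hp1 : μ⁻¹ * (1 - μ⁻¹) ^ 3 ≤ 1 := mul_le_one₀ h1.le (by positivity) hb3
  obtain ⟨γ, hγ, u0, h⟩ := poly (c := μ⁻¹ * (1 - μ⁻¹) ^ 3 * (1 / 250)) h0 h1 (by positivity)
    (by linarith) (by linarith)
  refine ⟨γ / 2, by positivity, 3 * u0 + 9, fun k p ξ hk _ hp hξ0 hξ1 => ?_⟩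
  obtain ⟨N, ψ, u, S, hu, e⟩ := reduction hμ hp hξ0 hξ1
  have hk0 : (0 : ℝ) < k := by
    have : 0 < k := by omega
    exact_mod_cast this
  rw [e, Real.rpow_def_of_pos hk0]
  refine (h N ψ S u 0 (by omega)).trans (Real.exp_le_exp.2 ?_)
  have h2 : k ≤ u ^ 2 := by
    have : 3 ≤ u := by omega
    nlinarith
  have h3 : Real.log k ≤ 2 * Real.log u := by
    have h4 : (k : ℝ) ≤ (u : ℝ) ^ 2 := by exact_mod_cast h2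
    have h5 := Real.log_le_log hk0 h4
    rwa [Real.log_pow, Nat.cast_ofNat] at h5
  nlinarith

end Pool.Agent.Results.MP_d124bf_nt.Poly
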