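import Pool.Agent.K.MP_d124bf_nt.C0
import Pool.Agent.K.MP_d124bf_nt.C1

namespace Pool.Agent.Results.MP_d124bf_nt.QuasiPoly

open Pool.Agent.P.MP_d124bf_nt

theorem result (μ : ℝ) (hμ : Real.logb 2 3 < μ) :
    ∃ c : ℝ, 0 < c ∧ ∃ k₀ : ℕ, ∀ k p : ℕ, ∀ ξ : ℤ, k₀ ≤ k → 1 ≤ p → p ≤ k → 0 < ξ → ξ < 2 ^ p →
      ‖coeff μ k p ξ‖ ≤ Real.exp (-c * Real.log k ^ 2) := by
  have l2 : 0 < Real.log 2 := Real.log_pos (by norm_num)
  have l23 : Real.log 2 < Real.log 3 := Real.log_lt_log (by norm_num) (by norm_num)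
  rw [Real.logb, div_lt_iff₀ l2] at hμ
  have hμ1 : 1 < μ := by nlinarith
  have h0 : 0 < μ⁻¹ := by positivity
  have h1 : μ⁻¹ < 1 := inv_lt_one_of_one_lt₀ hμ1
  have hq : μ⁻¹ * Real.log 3 < Real.log 2 := by
    rw [inv_mul_lt_iff₀ (by linarith)]; exact hμ
  have hb : 0 < 1 - μ⁻¹ := by linarith
  have hb3 : (1 - μ⁻¹) ^ 3 ≤ 1 := pow_le_one₀ hb.le (by linarith)
  have hp : 0 < μ⁻¹ * (1 - μ⁻¹) ^ 3 := by positivity
  have hp1 : μ⁻¹ * (1 - μ⁻¹) ^ 3 ≤ 1 := mul_le_one₀ h1.le (by positivity) hb3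
  obtain ⟨γ, hγ, u0, h⟩ := quasi (c := μ⁻¹ * (1 - μ⁻¹) ^ 3 * (1 / 250)) h0 hq (by positivity)
    (by linarith) (by linarith)
  refine ⟨γ / 4, by positivity, 3 * u0 + 9, fun k p ξ hk _ hp hξ0 hξ1 => ?_⟩
  obtain ⟨N, ψ, u, S, hu, e⟩ := reduction hμ1 hp hξ0 hξ1
  rw [e]
  refine (h N ψ S u 0 (by omega)).trans (Real.exp_le_exp.2 ?_)
  have h2 : k ≤ u ^ 2 := by
    have : 3 ≤ u := by omega
    nlinarith
  have h3 : Real.log k ≤ 2 * Real.log u := by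
    have h4 : (k : ℝ) ≤ (u : ℝ) ^ 2 := by exact_mod_cast h2
    have h5 := Real.log_le_log (by have : 0 < k := by omega
                                   exact_mod_cast this) h4
    rwa [Real.log_pow, Nat.cast_ofNat] at h5
  have h6 : Real.log k ^ 2 ≤ (2 * Real.log u) ^ 2 :=
    pow_le_pow_left₀ (Real.log_natCast_nonneg k) h3 2
  nlinarith

end Pool.Agent.Results.MP_d124bf_nt.QuasiPoly
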