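import Pool.Agent.K.MP_d124bf_nt.C4

namespace Pool.Agent.Results.MP_d124bf_nt.SumBound

open Pool.Agent.P.MP_d124bf_nt

theorem result (μ : ℝ) (hμ : 1 < μ) (hne : μ ≠ Real.logb 2 3) :
    ∃ c₀ : ℝ, 0 < c₀ ∧ ∃ c : ℝ, 0 < c ∧ ∃ k₀ : ℕ, ∀ k p : ℕ, k₀ ≤ k → 1 ≤ p → (p : ℝ) ≤ c₀ * k →
      ∑ ξ ∈ Finset.Ioo (0 : ℕ) (2 ^ p), ‖coeff μ k p (ξ : ℤ)‖
        ≤ Real.exp (-c * Real.log k * Real.log ((k : ℝ) / p)) :=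
  sum_both hμ hne

end Pool.Agent.Results.MP_d124bf_nt.SumBound
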